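import Pool.Agent.H517R2.EO.Final

/-!
# Exact overlaps : wrap-up for arbitrary finite index types, and the converse
-/

set_option autoImplicit false

open Finset Set

namespace Pool.Agent.W587.EO

/-- composition of the maps `x ↦ r i * x + b i` along a word: the empty word gives the identity,
the word `i :: w` gives the map of `i` after the map of `w` -/
def wordMap {ι : Type} (r b : ι → ℝ) : List ι → ℝ → ℝ
  | [], x => x
  | i :: w, x => r i * wordMap r b w x + b i

theorem wordMap_nil {ι : Type} (r b : ι → ℝ) (x : ℝ) : wordMap r b [] x = x := rfl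

theorem wordMap_cons {ι : Type} (r b : ι → ℝ) (i : ι) (w : List ι) (x : ℝ) :
    wordMap r b (i :: w) x = r i * wordMap r b w x + b i := rfl

theorem wordMap_append {ι : Type} (r b : ι → ℝ) (u v : List ι) (x : ℝ) :
    wordMap r b (u ++ v) x = wordMap r b u (wordMap r b v x) := by
  induction u with
  | nil => rfl
  | cons i u ih => rw [List.cons_append, wordMap_cons, wordMap_cons, ih]

/-- product of the ratios -/
noncomputable def rr {ι : Type} (r : ι → ℝ) (w : List ι) : ℝ := (w.map r).prod

theorem rr_append {ι : Type} (r : ι → ℝ) (u v : List ι) : rr r (u ++ v) = rr r u * rr r v := by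
  simp [rr]

theorem rr_cons {ι : Type} (r : ι → ℝ) (i : ι) (v : List ι) : rr r (i :: v) = r i * rr r v := by
  simp [rr]

theorem wordMap_affine {ι : Type} (r b : ι → ℝ) (w : List ι) (x : ℝ) :
    wordMap r b w x = rr r w * x + wordMap r b w 0 := by
  induction w with
  | nil => simp [wordMap, rr]
  | cons i w ih => rw [wordMap_cons, wordMap_cons, rr_cons, ih]; ring

theorem rr_eq {ι : Type} (r b : ι → ℝ) (u v : List ι) (h : wordMap r b u = wordMap r b v) :
    rr r u = rr r v := by
  have h1 := congrFun h 1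
  have h0 := congrFun h 0
  rw [wordMap_affine r b u 1, wordMap_affine r b v 1] at h1
  linarith

theorem rr_abs_lt {ι : Type} (r : ι → ℝ) (hr : ∀ i, r i ≠ 0 ∧ |r i| < 1) (w : List ι) (hw : w ≠ []) :
    |rr r w| < 1 := by
  induction w with
  | nil => exact absurd rfl hw
  | cons i w ih =>
    rw [rr_cons, abs_mul]
    by_cases h : w = []
    · subst h
      simpa [rr] using (hr i).2
    · have h1 := ih h
      have h2 := (hr i).2
      have h3 := abs_nonneg (r i)
      have h4 := abs_nonneg (rr r w)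
      nlinarith

theorem rr_ne {ι : Type} (r : ι → ℝ) (hr : ∀ i, r i ≠ 0 ∧ |r i| < 1) (w : List ι) : rr r w ≠ 0 := by
  induction w with
  | nil => simp [rr]
  | cons i w ih => rw [rr_cons]; exact mul_ne_zero (hr i).1 ih

/-- two different words with the same map give two different words of the same length with the
same map -/
theorem same_length {ι : Type} (r b : ι → ℝ) (hr : ∀ i, r i ≠ 0 ∧ |r i| < 1) (u v : List ι)
    (hne : u ≠ v) (h : wordMap r b u = wordMap r b v) :
    ∃ u' v' : List ι, u'.length = v'.length ∧ u' ≠ v' ∧ wordMap r b u' = wordMap r b v' := by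
  by_cases hl : u.length = v.length
  · exact ⟨u, v, hl, hne, h⟩
  refine ⟨u ++ v, v ++ u, by simp [add_comm], ?_, ?_⟩
  · intro heq
    -- one is a prefix of the other
    have key : ∀ u v : List ι, u.length < v.length → u ++ v = v ++ u → rr r u = rr r v → False := by
      intro u v hlt heq hrr
      have hp : u <+: v := by
        have h1 : u <+: u ++ v := List.prefix_append u v
        have h2 : v <+: u ++ v := heq ▸ List.prefix_append v u
        exact List.prefix_of_prefix_length_le h1 h2 hlt.le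
      obtain ⟨t, ht⟩ := hp
      have htne : t ≠ [] := by
        rintro rfl
        simp at ht
        subst ht
        exact lt_irrefl _ hlt
      have h3 : rr r u * 1 = rr r u * rr r t := by
        rw [← rr_append, ht, mul_one, hrr]
      have h4 := mul_left_cancel₀ (rr_ne r hr u) h3
      have h5 := rr_abs_lt r hr t htne
      rw [← h4] at h5
      simp at h5
    rcases lt_or_gt_of_ne hl with h1 | h1
    · exact key u v h1 heq (rr_eq r b u v h)
    · exact key v u h1 heq.symm (rr_eq r b u v h).symm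
  · funext x
    rw [wordMap_append, wordMap_append, h]

/-- the main theorem for an arbitrary finite index type -/
theorem main {ι : Type} [Fintype ι] [Nonempty ι] (r b : ι → ℝ) (hr : ∀ i, r i ≠ 0 ∧ |r i| < 1)
    (hfree : ∀ u v : List ι, u.length = v.length → wordMap r b u = wordMap r b v → u = v)
    (X : Set ℝ) (hne : X.Nonempty) (hc : IsCompact X)
    (hX : X = ⋃ i, (fun x : ℝ => r i * x + b i) '' X) (s : ℝ) (hs : ∑ i, |r i| ^ s = 1) :
    dimH X = ENNReal.ofReal (min 1 s) := by
  classical
  let e := Fintype.equivFin ι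
  refine H517.EO.exact_overlaps (Fintype.card ι) (r ∘ e.symm) (b ∘ e.symm) Fintype.card_pos
    (fun i => hr _) ?_ X hne hc ?_ s ?_
  · intro w w' hw
    by_contra hww
    have hf : ∀ w : List (Fin (Fintype.card ι)),
        List.foldr (fun i (g : ℝ → ℝ) => fun x : ℝ => (r ∘ e.symm) i * g x + (b ∘ e.symm) i)
          (fun x : ℝ => x) w = wordMap r b (w.map e.symm) := by
      intro w
      induction w with
      | nil => rfl
      | cons i w ih =>
        rw [List.foldr_cons, ih]
        rfl
    rw [hf, hf] at hw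
    have hne' : w.map e.symm ≠ w'.map e.symm := by
      intro h
      exact hww (List.map_injective_iff.2 e.symm.injective h)
    obtain ⟨u, v, h1, h2, h3⟩ := same_length r b hr _ _ hne' hw
    exact h2 (hfree u v h1 h3)
  · rw [hX]
    rw [← hX]
    ext x
    conv_lhs => rw [hX]
    simp only [mem_iUnion, mem_image, Function.comp]
    constructor
    · rintro ⟨i, y, hy, rfl⟩
      exact ⟨e i, y, hy, by simp⟩
    · rintro ⟨i, y, hy, rfl⟩
      exact ⟨e.symm i, y, hy, rfl⟩
  · rw [← hs]
    exact Fintype.sum_equiv e.symm _ _ (fun i => rfl)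

/-- the attractor and words of length `m` -/
theorem attr_words {ι : Type} (r b : ι → ℝ) (X : Set ℝ)
    (hX : X = ⋃ i, (fun x : ℝ => r i * x + b i) '' X) (m : ℕ) :
    X = ⋃ w : Fin m → ι, wordMap r b (List.ofFn w) '' X := by
  induction m with
  | zero =>
    ext x
    simp [wordMap]
  | succ m ih =>
    ext x
    constructor
    · intro hx
      rw [hX] at hx
      obtain ⟨i, hi⟩ := mem_iUnion.1 hx
      obtain ⟨y, hy, rfl⟩ := hi
      rw [ih] at hy
      obtain ⟨w, hw⟩ := mem_iUnion.1 hy
      obtain ⟨z, hz, rfl⟩ := hw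
      refine mem_iUnion.2 ⟨Fin.cons i w, z, hz, ?_⟩
      simp [List.ofFn_succ, wordMap_cons]
    · intro hx
      obtain ⟨w, hw⟩ := mem_iUnion.1 hx
      obtain ⟨z, hz, rfl⟩ := hw
      rw [hX]
      refine mem_iUnion.2 ⟨w 0, wordMap r b (List.ofFn (fun i : Fin m => w i.succ)) z, ?_, ?_⟩
      · rw [ih]
        exact mem_iUnion.2 ⟨fun i => w i.succ, z, hz, rfl⟩
      · simp [List.ofFn_succ, wordMap_cons]

theorem rr_pow_abs {ι : Type} (r : ι → ℝ) (m : ℕ) (s : ℝ) (w : Fin m → ι) :
    |rr r (List.ofFn w)| ^ s = ∏ j, |r (w j)| ^ s := by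
  have h : rr r (List.ofFn w) = ∏ j, r (w j) := by
    rw [rr, List.map_ofFn, List.prod_ofFn]
    rfl
  rw [h, Finset.abs_prod, ← Real.finsetProd_rpow _ _ (fun i _ => abs_nonneg _)]

/-- the total mass of the words of length `m` -/
theorem sum_words {ι : Type} [Fintype ι] (r : ι → ℝ) (s : ℝ) (hs : ∑ i, |r i| ^ s = 1) (m : ℕ) :
    ∑ w : Fin m → ι, |rr r (List.ofFn w)| ^ s = 1 := by
  classical
  simp_rw [rr_pow_abs]
  have h2 := Finset.prod_univ_sum (fun _ : Fin m => (Finset.univ : Finset ι))
    (fun (_ : Fin m) (j : ι) => |r j| ^ s)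
  rw [Fintype.piFinset_univ] at h2
  rw [← h2, Finset.prod_const, hs, one_pow]

/-- the similarity dimension bound for an arbitrary finite index type -/
theorem upper {ι : Type} [Fintype ι] [Nonempty ι] (r b : ι → ℝ) (hr : ∀ i, r i ≠ 0 ∧ |r i| < 1)
    (X : Set ℝ) (hne : X.Nonempty) (hc : IsCompact X)
    (hX : X = ⋃ i, (fun x : ℝ => r i * x + b i) '' X) (s : ℝ) (hs : ∑ i, |r i| ^ s = 1) :
    dimH X ≤ ENNReal.ofReal (min 1 s) := by
  classical
  let e := Fintype.equivFin ι
  refine H517.EO.t_G_upper (Fintype.card ι) (r ∘ e.symm) (b ∘ e.symm) Fintype.card_pos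
    (fun i => hr _) X hne hc ?_ s ?_
  · ext x
    conv_lhs => rw [hX]
    simp only [mem_iUnion, mem_image, Function.comp]
    constructor
    · rintro ⟨i, y, hy, rfl⟩
      exact ⟨e i, y, hy, by simp⟩
    · rintro ⟨i, y, hy, rfl⟩
      exact ⟨e.symm i, y, hy, rfl⟩
  · rw [← hs]
    exact Fintype.sum_equiv e.symm _ _ (fun i => rfl)

/-- exact overlaps force a drop below the similarity dimension -/
theorem drop {ι : Type} [Fintype ι] [Nonempty ι] (r b : ι → ℝ) (hr : ∀ i, r i ≠ 0 ∧ |r i| < 1)
    (u v : List ι) (huv : u ≠ v) (h : wordMap r b u = wordMap r b v)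
    (X : Set ℝ) (hne : X.Nonempty) (hc : IsCompact X)
    (hX : X = ⋃ i, (fun x : ℝ => r i * x + b i) '' X) (s : ℝ) (hs : ∑ i, |r i| ^ s = 1) :
    dimH X < ENNReal.ofReal s := by
  classical
  obtain ⟨u', v', hl, hne', heq⟩ := same_length r b hr u v huv h
  obtain ⟨m, hm⟩ : ∃ m, m = v'.length := ⟨_, rfl⟩
  obtain ⟨p, hp⟩ : ∃ p : Fin m → ι, List.ofFn p = u' := by
    have h1 : u'.length = m := by omega
    subst h1
    exact ⟨u'.get, List.ofFn_get u'⟩
  obtain ⟨q, hq⟩ : ∃ q : Fin m → ι, List.ofFn q = v' := by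
    subst hm
    exact ⟨v'.get, List.ofFn_get v'⟩
  have hpq : p ≠ q := by
    rintro rfl
    exact hne' (hp.symm.trans hq)
  -- the smaller system
  let J : Type := {w : Fin m → ι // w ≠ q}
  haveI : Nonempty J := ⟨⟨p, hpq⟩⟩
  let R : J → ℝ := fun w => rr r (List.ofFn w.1)
  let B : J → ℝ := fun w => wordMap r b (List.ofFn w.1) 0
  have hm0 : m ≠ 0 := by
    rintro rfl
    exact hpq (Subsingleton.elim _ _)
  have hR : ∀ j, R j ≠ 0 ∧ |R j| < 1 := by
    intro j
    refine ⟨rr_ne r hr _, rr_abs_lt r hr _ ?_⟩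
    intro h0
    have := congrArg List.length h0
    simp at this
    exact hm0 this
  have hXJ : X = ⋃ j : J, (fun x : ℝ => R j * x + B j) '' X := by
    ext x
    constructor
    · intro hx
      rw [attr_words r b X hX m] at hx
      obtain ⟨w, hw⟩ := mem_iUnion.1 hx
      obtain ⟨z, hz, rfl⟩ := hw
      by_cases hwq : w = q
      · refine mem_iUnion.2 ⟨⟨p, hpq⟩, z, hz, ?_⟩
        show rr r (List.ofFn p) * z + wordMap r b (List.ofFn p) 0 = _
        rw [← wordMap_affine, hwq, hp, hq, heq]
      · refine mem_iUnion.2 ⟨⟨w, hwq⟩, z, hz, ?_⟩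
        show rr r (List.ofFn w) * z + wordMap r b (List.ofFn w) 0 = _
        rw [← wordMap_affine]
    · intro hx
      obtain ⟨w, hw⟩ := mem_iUnion.1 hx
      obtain ⟨z, hz, rfl⟩ := hw
      rw [attr_words r b X hX m]
      refine mem_iUnion.2 ⟨w.1, z, hz, ?_⟩
      show wordMap r b (List.ofFn w.1) z = rr r (List.ofFn w.1) * z + wordMap r b (List.ofFn w.1) 0
      rw [← wordMap_affine]
  -- the mass of the smaller system at `s`
  have hmass : ∑ j : J, |R j| ^ s < 1 := by
    have h1 := sum_words r s hs m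
    rw [← Fintype.sum_subtype_add_sum_subtype (fun w : Fin m → ι => w ≠ q)
      (fun w => |rr r (List.ofFn w)| ^ s)] at h1
    have h2 : 0 < ∑ w : {w : Fin m → ι // ¬ w ≠ q}, |rr r (List.ofFn w.1)| ^ s := by
      refine Finset.sum_pos (fun i _ => Real.rpow_pos_of_pos (abs_pos.2 (rr_ne r hr _)) _)
        ⟨⟨q, by simp⟩, Finset.mem_univ _⟩
    have h3 : ∑ j : J, |R j| ^ s = ∑ w : {w : Fin m → ι // w ≠ q}, |rr r (List.ofFn w.1)| ^ s := rfl
    linarith
  -- the similarity dimension of the smaller system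
  have hcont : Continuous (fun t : ℝ => ∑ j : J, |R j| ^ t) := by
    refine continuous_finsetSum _ fun j _ => ?_
    exact Real.continuous_const_rpow (abs_pos.2 (hR j).1).ne'
  have h0 : (1 : ℝ) ≤ ∑ j : J, |R j| ^ (0 : ℝ) := by
    simp only [Real.rpow_zero, Finset.sum_const, Finset.card_univ, nsmul_eq_mul, mul_one]
    exact_mod_cast Fintype.card_pos
  have hs0 : 0 < s := by
    by_contra hneg
    push Not at hneg
    have h1 : ∀ j ∈ (Finset.univ : Finset J), |R j| ^ (0 : ℝ) ≤ |R j| ^ s := fun j _ =>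
      Real.rpow_le_rpow_of_exponent_ge (abs_pos.2 (hR j).1) (hR j).2.le hneg
    have h2 := Finset.sum_le_sum h1
    linarith
  obtain ⟨t, ht, hts⟩ : ∃ t ∈ Set.Icc (0 : ℝ) s, ∑ j : J, |R j| ^ t = 1 := by
    have := intermediate_value_Icc' hs0.le hcont.continuousOn
    exact this ⟨hmass.le, h0⟩
  have htlt : t < s := lt_of_le_of_ne ht.2 (by
    rintro rfl
    exact absurd hts hmass.ne)
  calc dimH X ≤ ENNReal.ofReal (min 1 t) := upper R B hR X hne hc hXJ t hts
    _ ≤ ENNReal.ofReal t := ENNReal.ofReal_le_ofReal (min_le_right _ _)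
    _ < ENNReal.ofReal s := (ENNReal.ofReal_lt_ofReal_iff hs0).2 htlt

end Pool.Agent.W587.EO
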